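import Mathlib

namespace Pool.Agent.Results.MP_0548d2_gt.NotStrong

open CategoryTheory Set

section

variable {k : Type} [Field k] {C : Type} [PartialOrder C] (M : C ⥤ ModuleCat.{0} k)

/-- the multi-flag generated by a set of subspaces -/
def gen {V : Type} [AddCommGroup V] [Module k V] (T : Set (Submodule k V)) : Set (Submodule k V) :=
  ⋂₀ {S | ⊥ ∈ S ∧ ⊤ ∈ S ∧ (∀ A ∈ S, ∀ B ∈ S, A ⊓ B ∈ S) ∧ T ⊆ S}

/-- the structure map for `x ≤ y` -/
def φ {x y : C} (h : x ≤ y) : M.obj x →ₗ[k] M.obj y := (M.map (homOfLE h)).hom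

/-- the `n`-th stage of the local structure relative to `F` -/
def stage (F : ∀ x, Set (Submodule k (M.obj x))) : ℕ → ∀ x, Set (Submodule k (M.obj x))
  | 0, x => gen (gen ({W | ∃ y, ∃ h : x ≤ y, W = (φ M h).ker} ∪
      {W | ∃ z, ∃ h : z ≤ x, W = (φ M h).range}) ∪ F x)
  | n + 1, x => gen ({W | ∃ y, ∃ h : x ≤ y, ∃ W' ∈ stage F n y, W = W'.comap (φ M h)} ∪
      {W | ∃ z, ∃ h : z ≤ x, ∃ W' ∈ stage F n z, W = W'.map (φ M h)})

/-- stable local structure -/
def Stable : Prop :=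
  ∀ x, ∃ N, ∀ n ≥ N, stage M (fun _ => ∅) n x = stage M (fun _ => ∅) (n + 1) x

/-- strongly stable local structure -/
def StronglyStable : Prop :=
  ∀ F : ∀ x, Set (Submodule k (M.obj x)), (∀ x, (F x).Finite ∧ gen (F x) = F x) →
    ∃ N, ∀ x, ⋃ n, stage M F n x = stage M F N x

end

section

variable {k V : Type} [Field k] [AddCommGroup V] [Module k V] {T S : Set (Submodule k V)}

lemma sub_gen : T ⊆ gen T := fun _ h _ hS => hS.2.2.2 h
lemma bot_gen : ⊥ ∈ gen T := fun _ hS => hS.1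
lemma top_gen : ⊤ ∈ gen T := fun _ hS => hS.2.1

lemma gen_sub (h1 : ⊥ ∈ S) (h2 : ⊤ ∈ S) (h3 : ∀ A ∈ S, ∀ B ∈ S, A ⊓ B ∈ S) (h : T ⊆ S) :
    gen T ⊆ S := fun _ hA => hA S ⟨h1, h2, h3, h⟩

end

def C := Fin 4

instance : DecidableEq C := inferInstanceAs (DecidableEq (Fin 4))
instance : Fintype C := inferInstanceAs (Fintype (Fin 4))
instance (n : ℕ) : OfNat C n := ⟨(Fin.ofNat 4 n : Fin 4)⟩

def le (x y : Fin 4) : Prop := x = y ∨ (x.val < 2 ∧ 2 ≤ y.val)

instance : DecidableRel le := fun _ _ => by unfold le; infer_instance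

instance : PartialOrder C where
  le := le
  le_refl := by decide
  le_trans := show ∀ a b c : Fin 4, le a b → le b c → le a c by decide
  le_antisymm := show ∀ a b : Fin 4, le a b → le b a → a = b by decide

/-- the shear -/
def sh (c : ℤ) : (ℚ × ℚ) ≃ₗ[ℚ] (ℚ × ℚ) where
  toFun p := (p.1 + c * p.2, p.2)
  invFun p := (p.1 - c * p.2, p.2)
  map_add' p q := by ext <;> simp; ring
  map_smul' a p := by ext <;> simp; ring
  left_inv p := by simp
  right_inv p := by simp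

def c (x y : C) : ℤ := if x = 0 ∧ y = 2 then 1 else 0

lemma c_add : ∀ x y z : C, x ≤ y → y ≤ z → c x z = c x y + c y z :=
  show ∀ x y z : Fin 4, le x y → le y z → c x z = c x y + c y z by decide

noncomputable def M : C ⥤ ModuleCat.{0} ℚ where
  obj _ := ModuleCat.of ℚ (ℚ × ℚ)
  map {x y} _ := ModuleCat.ofHom (sh (c x y)).toLinearMap
  map_id x := by
    have : c x x = 0 := by revert x; decide
    ext <;> simp [sh, this]
  map_comp {x y z} f g := by
    ext <;> simp [sh, c_add x y z f.le g.le]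

lemma φ_eq {x y : C} (h : x ≤ y) : φ M h = (sh (c x y)).toLinearMap := rfl

def L (m : ℤ) : Submodule ℚ (ℚ × ℚ) := ℚ ∙ ((m : ℚ), (1 : ℚ))

lemma map_L (a m : ℤ) : (L m).map (sh a).toLinearMap = L (m + a) := by
  simp [L, Submodule.map_span, sh]

lemma comap_L (a m : ℤ) : (L m).comap (sh a).toLinearMap = L (m - a) := by
  rw [show L m = (L (m - a)).map (sh a).toLinearMap by rw [map_L, sub_add_cancel],
    Submodule.comap_map_eq_of_injective (sh a).injective]

lemma mem_L {m : ℤ} {p : ℚ × ℚ} : p ∈ L m ↔ p.1 = m * p.2 := by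
  rw [L, Submodule.mem_span_singleton]
  constructor
  · rintro ⟨a, rfl⟩
    simp [mul_comm]
  · exact fun h => ⟨p.2, by ext <;> simp [h, mul_comm]⟩

lemma L_inf {m n : ℤ} (h : m ≠ n) : L m ⊓ L n = ⊥ := by
  refine eq_bot_iff.2 fun p ⟨h1, h2⟩ => ?_
  have h1 := mem_L.1 h1
  have h3 : p.2 = 0 := by
    by_contra h0
    exact h (by exact_mod_cast mul_right_cancel₀ h0 (h1.symm.trans (mem_L.1 h2)))
  exact Prod.ext (by simp [h1, h3]) h3

def S (A : Set ℤ) : Set (Submodule ℚ (ℚ × ℚ)) := {⊥, ⊤} ∪ L '' A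

lemma gen_S {T : Set (Submodule ℚ (ℚ × ℚ))} {A : Set ℤ} (h : T ⊆ S A) : gen T ⊆ S A := by
  refine gen_sub (by simp [S]) (by simp [S]) ?_ h
  rintro _ ((rfl | rfl) | ⟨m, hm, rfl⟩) _ ((rfl | rfl) | ⟨n, hn, rfl⟩) <;> try (simp [S]; done)
  · simpa using .inr ⟨n, hn, rfl⟩
  · simpa using .inr ⟨m, hm, rfl⟩
  · rcases eq_or_ne m n with rfl | e
    · simpa using .inr ⟨m, hm, rfl⟩
    · simp [L_inf e, S]

lemma stage_sub (F : C → Set (Submodule ℚ (ℚ × ℚ))) (A : ℕ → Set ℤ) (h0 : ∀ x, F x ⊆ S (A 0))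
    (h : ∀ n, ∀ m ∈ A n, m ∈ A (n + 1) ∧ m + 1 ∈ A (n + 1) ∧ m - 1 ∈ A (n + 1)) (n : ℕ) :
    ∀ x, stage M F n x ⊆ S (A n) := by
  induction n with
  | zero =>
    refine fun x => gen_S (union_subset (gen_S ?_) (h0 x))
    rintro _ (⟨y, h, rfl⟩ | ⟨y, h, rfl⟩)
    · exact .inl (.inl (sh _).ker)
    · exact .inl (.inr (sh _).range)
  | succ n ih =>
    refine fun x => gen_S ?_
    rintro _ (⟨y, hy, W, hW, rfl⟩ | ⟨y, hy, W, hW, rfl⟩) <;>
      rcases ih y hW with (rfl | rfl) | ⟨m, hm, rfl⟩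
    · exact .inl (.inl (sh _).ker)
    · exact .inl (.inr (Submodule.comap_top _))
    · refine .inr ⟨_, ?_, (comap_L _ m).symm⟩
      unfold c
      split_ifs <;> simp [h n m hm]
    · exact .inl (.inl (Submodule.map_bot _))
    · exact .inl (.inr ((Submodule.map_top _).trans (sh _).range))
    · refine .inr ⟨_, ?_, (map_L _ m).symm⟩
      unfold c
      split_ifs <;> simp [h n m hm]

lemma up {F : C → Set (Submodule ℚ (ℚ × ℚ))} {n : ℕ} {m : ℤ} {x y : C} (h : x ≤ y)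
    (hm : L m ∈ stage M F n x) : L (m + c x y) ∈ stage M F (n + 1) y :=
  sub_gen (.inr ⟨x, h, _, hm, (map_L _ m).symm⟩)

lemma down {F : C → Set (Submodule ℚ (ℚ × ℚ))} {n : ℕ} {m : ℤ} {x y : C} (h : x ≤ y)
    (hm : L m ∈ stage M F n y) : L (m - c x y) ∈ stage M F (n + 1) x :=
  sub_gen (.inl ⟨y, h, _, hm, (comap_L _ m).symm⟩)

theorem result : ∃ (k : Type) (_ : Field k) (C : Type) (_ : PartialOrder C) (_ : Finite C)
    (M : C ⥤ ModuleCat.{0} k), IsConnected C ∧ (∀ x, FiniteDimensional k (M.obj x)) ∧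
    Stable M ∧ ¬ StronglyStable M := by
  have l02 : (0 : C) ≤ 2 := show le 0 2 by decide
  have l12 : (1 : C) ≤ 2 := show le 1 2 by decide
  have l13 : (1 : C) ≤ 3 := show le 1 3 by decide
  have l03 : (0 : C) ≤ 3 := show le 0 3 by decide
  refine ⟨ℚ, _, C, _, inferInstance, M, ?_, fun _ => inferInstanceAs (FiniteDimensional ℚ (ℚ × ℚ)),
    fun x => ⟨0, fun n _ => ?_⟩, fun h => ?_⟩
  · have : Nonempty C := ⟨0⟩
    have h (x : C) : Zigzag 0 x := by
      have : x = 0 ∨ x = 1 ∨ x = 2 ∨ x = 3 := by revert x; decide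
      rcases this with rfl | rfl | rfl | rfl
      · exact .refl _
      · exact .of_hom_inv (homOfLE l02) (homOfLE l12)
      · exact .of_hom (homOfLE l02)
      · exact .of_hom (homOfLE l03)
    exact zigzag_isConnected fun x y => (h x).symm.trans (h y)
  · have h (n : ℕ) : stage M (fun _ => ∅) n x = S ∅ := by
      refine (stage_sub (fun _ => ∅) (fun _ => ∅) (fun _ => empty_subset _) (by simp) n x).antisymm ?_
      rintro _ ((rfl | rfl) | ⟨_, ⟨⟩, _⟩) <;> cases n <;> first | exact bot_gen | exact top_gen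
    exact (h _).trans (h _).symm
  · obtain ⟨N, hN⟩ := h (fun _ => S {0}) fun _ =>
      ⟨((finite_singleton _).insert _).union ((finite_singleton _).image _), (gen_S subset_rfl).antisymm sub_gen⟩
    have h1 (m : ℕ) : L m ∈ stage M (fun _ => S {0}) (4 * m) 0 := by
      induction m with
      | zero => exact sub_gen (.inr (.inr ⟨0, rfl, rfl⟩))
      | succ m ih =>
        have := down l03 (up l13 (down l12 (up l02 ih)))
        rwa [show c 0 2 = 1 from rfl, show c 1 2 = 0 from rfl, show c 1 3 = 0 from rfl,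
          show c 0 3 = 0 from rfl, sub_zero, add_zero, sub_zero] at this
    have h2 := stage_sub (fun _ => S {0}) (fun n => Icc (-n) n) (by simp) (fun n m hm => by
      simp only [mem_Icc] at hm ⊢
      omega) N 0 ((hN 0).subset (mem_iUnion.2 ⟨_, h1 (N + 1)⟩))
    rcases h2 with (e | e) | ⟨m, hm, e⟩
    · have : (((N + 1 : ℕ) : ℚ), (1 : ℚ)) ∈ L (N + 1 : ℕ) := mem_L.2 (by simp)
      rw [e] at this
      simp at this
    · have : ((1 : ℚ), (0 : ℚ)) ∈ L (N + 1 : ℕ) := e ▸ trivial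
      simp [mem_L] at this
    · have : ((m : ℚ), (1 : ℚ)) ∈ L (N + 1 : ℕ) := e ▸ mem_L.2 (by simp)
      have : (m : ℚ) = ((N + 1 : ℕ) : ℤ) := (mem_L.1 this).trans (mul_one _)
      have : m = (N + 1 : ℕ) := by exact_mod_cast this
      have := hm.2
      omega

end Pool.Agent.Results.MP_0548d2_gt.NotStrong
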